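import Pool.Agent.TH988.WP.Fin

/-!
# The word problem is undecidable in all varieties which contain `W_K`

Let `K` be a constructive field of characteristic zero and let `W_K` be the variety of associative
algebras given by `x[y,z][t,u]v = 0`, `x[y,z,t]u = 0`. There are finitely many generators and
relations such that in every variety which contains `W_K` the algebra presented by them has
undecidable word problem.
-/

set_option autoImplicit false

namespace Pool.Agent.Results.MP_f5ceca_al.UndecidableAboveW

open Pool.Agent.TH988.WP Pool.Agent.Helper707.Flat Pool.Agent.Helper707.Num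

theorem result (K : Type) [Field K] [CharZero K] (c : Coding K) :
    -- one presentation for all varieties which contain `W_K`
    (∃ (n : ℕ) (R : Set (Poly K (Fin n))), R.Finite ∧
      ∀ I : Set (Poly K ℕ), ContainsW K I → ¬ DecidableWP K c I n R) ∧
    -- one implication of the question
    (∀ I : Set (Poly K ℕ), ContainsW K I → ¬ DecidableIn K c I) := by
  have key : ∃ (n : ℕ) (R : Set (Poly K (Fin n))), R.Finite ∧
      ∀ I : Set (Poly K ℕ), ContainsW K I → ¬ DecidableWP K c I n R := by
    obtain ⟨f, hf, hund⟩ := exists_undecidable
    obtain ⟨body, hb⟩ := search hf
    obtain ⟨k, hk⟩ := code_ok (prog body)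
    set P : List Ins := code (prog body) 0 with hP
    have hlen : P.length = len (prog body) := length_code _ _
    have hok : ∀ i ∈ P, Ok (k + 1) P.length i := by
      intro i hi
      refine (hk 0 i hi).mono (Nat.le_succ k) ?_
      rw [hlen, zero_add]
    obtain ⟨c1, hc1⟩ := c.surj 1
    refine ⟨ng k P.length, relR K k P, relR_finite K k P, fun I hI hdec => hund ?_⟩
    let g : ℕ → List (ℕ × Fin (ng k P.length) × List (Fin (ng k P.length))) := fun N =>
      [(c1, gX k P.length 0, (List.range N).map (fun _ => gy k P.length 0) ++ [gU k P.length])]
    have hg : Computable g := by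
      have h1 : Primrec fun N : ℕ => (List.range N).map (fun _ => gy k P.length 0) :=
        Primrec.list_map Primrec.list_range (Primrec.const _).to₂
      have h2 : Primrec fun N : ℕ =>
          (List.range N).map (fun _ => gy k P.length 0) ++ [gU k P.length] :=
        Primrec.list_append.comp h1 (Primrec.const _)
      have h3 : Primrec fun N : ℕ => (c1, gX k P.length 0,
          (List.range N).map (fun _ => gy k P.length 0) ++ [gU k P.length]) :=
        Primrec.pair (Primrec.const _) (Primrec.pair (Primrec.const _) h2)
      exact (Primrec.list_cons.comp h3 (Primrec.const _)).to_comp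
    refine ComputablePred.computable_of_manyOneReducible ⟨g, hg, fun N => ?_⟩ hdec
    refine (halting_iff hb N).trans ?_
    rw [← hlen]
    change Halts P (0, sx N 0 0) ↔ ZeroIn K I (ng k P.length) (relR K k P) (elt K c.num (g N))
    have hval : ∀ (B : Type) [NonUnitalRing B] [Module K B] [IsScalarTower K B B]
        [SMulCommClass K B B] (b : Fin (ng k P.length) → B), ev K b (elt K c.num (g N))
          = List.foldl (fun a b => a * b) (b (gX k P.length 0))
            (List.replicate N (b (gy k P.length 0))) * b (gU k P.length) := by
      intro B _ _ _ _ b
      unfold elt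
      simp only [g, List.map_cons, List.map_nil, List.sum_cons, List.sum_nil, add_zero]
      rw [ev_mono, hc1, one_smul, List.foldl_append, List.foldl_cons, List.foldl_nil,
        List.map_const', List.length_range]
      congr 1
      generalize b (gX k P.length 0) = a
      induction N generalizing a with
      | zero => rfl
      | succ N ih => rw [List.replicate_succ, List.foldl_cons, ih, List.replicate_succ,
          List.foldl_cons]
    constructor
    · intro hN B _ _ _ _ _ b hb'
      rw [hval]
      exact word_zero K (good_of b hb') hok N hN
    · intro hz
      by_contra hN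
      have hsat : ∀ q ∈ I, Sat K (Bm K (rho k P)) q :=
        hI (Bm K (rho k P)) (sat1 (rho k P)) (sat2 (rho k P))
      have h0 := hz (Bm K (rho k P)) hsat (bg K k P) (of_good _ (good_bg hok))
      rw [hval] at h0
      exact word_bg_ne N hN h0
  refine ⟨key, fun I hI hdec => ?_⟩
  obtain ⟨n, R, hR, h⟩ := key
  exact h I hI (hdec n R hR)

end Pool.Agent.Results.MP_f5ceca_al.UndecidableAboveW
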